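import Pool.Agent.Helper804.Cut.Rows

set_option autoImplicit false

namespace Pool.Agent.Helper804.Cut

open Matrix

lemma delta_rel (k : C) (ha : k.a ≠ 0) (b' e' f' : F) :
    (⟨0, b', k.a * (b' * (k.d + mm k.a) - k.b * (1 - b')), 1 - b', e', f'⟩ : C) * k =
      k ^ 4 * ⟨0, b', k.a * (b' * (k.d + mm k.a) - k.b * (1 - b')), 1 - b', e', f'⟩ := by
  have haa := sq_one k.a ha
  rw [k_four, mul_def, mul_def]
  simp only [mm, C.mk.injEq]
  refine ⟨by ring, by ring, by ring, by ring, ?_, by ring⟩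
  linear_combination (-(b' * (k.d + (k.a - k.a * k.a)) - k.b * (1 - b'))) * haa

/-- solving `u N² = ζ` -/
lemma solveNN (k : C) (ha : k.a ≠ 0) (ζ : Row) (h0 : ζ 0 = 0) (h1 : ζ 1 = 0) (h2 : ζ 2 = 0)
    (h4 : ζ 4 = (k.a * k.c + k.b * (k.d + mm k.a)) * ζ 3) :
    ∃ u : Row, u ᵥ* ((A k - 1) * (A k - 1)) = ζ := by
  have haa := sq_one k.a ha
  refine ⟨![ζ 3, k.a * (k.d - k.b - mm k.a) * ζ 3 - ζ 5, 0, 0, 0, 0], ?_⟩
  rw [vNN]
  ext i
  fin_cases i
  · simp [h0]
  · simp [h1]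
  · simp [h2]
  · simp
    linear_combination (ζ 3) * haa
  · simp [h4]
  · simp
    linear_combination (ζ 5 - k.a * (k.d - k.b - mm k.a) * ζ 3) * haa

/-- every row is fixed modulo `W N²` by some `δ` with `δ k = k ^ 4 δ` -/
lemma rowY (k : C) (ha : k.a ≠ 0) (y : Row) :
    ∃ δ : C, δ * k = k ^ 4 * δ ∧ ∃ u : Row, u ᵥ* ((A k - 1) * (A k - 1)) = y ᵥ* A δ - y := by
  have haa := sq_one k.a ha
  have key : ∀ b' e' : F, b' * y 0 = 0 →
      k.a * (b' * (k.d + mm k.a) - k.b * (1 - b')) * y 1 + (1 - b') * y 2 + e' * y 0 = 0 →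
      ∃ δ : C, δ * k = k ^ 4 * δ ∧ ∃ u : Row, u ᵥ* ((A k - 1) * (A k - 1)) = y ᵥ* A δ - y := by
    intro b' e' h1 h2
    refine ⟨_, delta_rel k ha b' e' 0, solveNN k ha _ ?_ ?_ ?_ ?_⟩
    · rw [vA]; simp
    · rw [vA]; simp
    · rw [vA]; simp [h1]
    · rw [vA]; simp [mm]
      simp only [mm] at h2
      linear_combination h2
  by_cases h0 : y 0 = 0
  · by_cases h2 : y 2 = k.a * k.b * y 1
    · refine key 0 0 (by simp) ?_
      rw [h0, h2]; ring
    · by_cases hd : k.d + mm k.a = 0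
      · refine key 1 0 (by simp [h0]) ?_
        rw [h0, hd]; ring
      · have hrel := delta_rel k ha 0 0 0
        rcases F_cases (k.d + mm k.a) with hd' | hd' | hd'
        · exact absurd hd' hd
        · refine ⟨(⟨0, 0, k.a * (0 * (k.d + mm k.a) - k.b * (1 - 0)), 1 - 0, 0, 0⟩ : C) * (k * k),
            ?_, solveNN k ha _ ?_ ?_ ?_ ?_⟩
          · calc _ = (⟨0, 0, k.a * (0 * (k.d + mm k.a) - k.b * (1 - 0)), 1 - 0, 0, 0⟩ : C) * k
                  * (k * k) := by simp only [mul_assoc]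
              _ = _ := by rw [hrel]; simp only [mul_assoc]
          all_goals
            rw [A_mul, A_mul, ← Matrix.vecMul_vecMul, ← Matrix.vecMul_vecMul, vA, vA, vA]
            simp [h0]
          simp only [mm] at hd' ⊢
          linear_combination (-2 * k.c * y 1) * haa + (2 * y 2 - 2 * k.a * k.b * y 1) * hd'
            + (y 2 - k.a * k.b * y 1) * three
        · refine ⟨(⟨0, 0, k.a * (0 * (k.d + mm k.a) - k.b * (1 - 0)), 1 - 0, 0, 0⟩ : C) * k,
            ?_, solveNN k ha _ ?_ ?_ ?_ ?_⟩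
          · rw [← mul_assoc (k ^ 4), ← hrel]
          all_goals
            rw [A_mul, ← Matrix.vecMul_vecMul, vA, vA]
            simp [h0]
          simp only [mm] at hd' ⊢
          linear_combination (- k.c * y 1) * haa + (y 2 - k.a * k.b * y 1) * hd'
  · have hyy := sq_one (y 0) h0
    refine key 0 (-(y 0) * (k.a * (0 * (k.d + mm k.a) - k.b * (1 - 0)) * y 1 + y 2)) (by simp) ?_
    linear_combination (-(k.a * (0 * (k.d + mm k.a) - k.b * (1 - 0)) * y 1 + y 2)) * hyy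


/-! ### the power formulas for `h ^ 3 = 1` -/

lemma V_three (w : V) : w + w + w = 0 := by
  ext i j
  simp only [Matrix.add_apply, Matrix.zero_apply]
  generalize w i j = t
  revert t; decide

lemma v_two (x : G) : (x ^ 2).v = H x.h * x.v + x.v * A x.k := by
  rw [pow_two, G.mul_def]

lemma v_three (x : G) :
    (x ^ 3).v = H x.h * (H x.h * x.v) + H x.h * (x.v * A x.k) + x.v * A x.k * A x.k := by
  have h1 : (x ^ 3).v = H (x ^ 2).h * x.v + (x ^ 2).v * A x.k := by rw [pow_succ, G.mul_def]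
  rw [h1, v_two, G.h_pow, H_pow, pow_two, Matrix.add_mul, Matrix.mul_assoc (H x.h) (H x.h) x.v,
    Matrix.mul_assoc (H x.h) x.v (A x.k), add_assoc]

lemma Δ_mul_A (h : SL) (k : C) (w : V) : Δ h k w * A k = Δ h k (w * A k) := by
  simp only [Δ_apply, Matrix.sub_mul, Matrix.mul_assoc]

lemma ΔΔ (h : SL) (k : C) (w : V) :
    Δ h k (Δ h k w) = H h * (H h * w) + H h * (w * A k) + w * A k * A k := by
  have h3 := V_three (H h * (w * A k))
  have : Δ h k (Δ h k w) = H h * (H h * w) - H h * (w * A k) - H h * (w * A k)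
      + w * A k * A k := by
    simp only [Δ_apply, Matrix.sub_mul, Matrix.mul_sub, Matrix.mul_assoc]
    abel
  rw [this]
  have h4 : H h * (w * A k) = - H h * (w * A k) - H h * (w * A k) := by
    rw [Matrix.neg_mul]
    rw [eq_comm, ← sub_eq_zero]
    rw [show - (H h * (w * A k)) - H h * (w * A k) - H h * (w * A k)
      = -(H h * (w * A k) + H h * (w * A k) + H h * (w * A k)) by abel, h3, neg_zero]
  conv_rhs => rw [h4, Matrix.neg_mul]
  abel

lemma v_four (x : G) (hx : x.h ^ 3 = 1) :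
    (x ^ 4).v = x.v + Δ x.h x.k (Δ x.h x.k (x.v * A x.k)) := by
  have h1 : (x ^ 4).v = H (x ^ 3).h * x.v + (x ^ 3).v * A x.k := by rw [pow_succ, G.mul_def]
  rw [h1, G.h_pow, hx, G.H_one, Matrix.one_mul, v_three, ← ΔΔ, Δ_mul_A, Δ_mul_A]

lemma pow_nine (x : G) (hx : x.h ^ 3 = 1) : x ^ 9 = 1 := by
  have h1 : (x ^ 3).h = 1 := by rw [G.h_pow, hx]
  have h2 : (x ^ 3).k = ⟨0, 0, 0, 0, 0, -x.k.a⟩ := by rw [G.k_pow, k_cube]
  have h3 : ((x ^ 3) ^ 3).v = 0 := by
    rw [v_three, ← ΔΔ, Δ_apply, Δ_apply, h1, h2, G.H_one, Matrix.one_mul, Matrix.one_mul]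
    have : ∀ (w : V) (t : F), w * A ⟨0, 0, 0, 0, 0, t⟩ * A ⟨0, 0, 0, 0, 0, t⟩ -
        w * A ⟨0, 0, 0, 0, 0, t⟩ - (w * A ⟨0, 0, 0, 0, 0, t⟩ - w) = 0 := by
      intro w t
      ext i j
      fin_cases j <;> simp [A, mm, Matrix.mul_apply, Fin.sum_univ_succ]
    rw [Matrix.sub_mul]
    exact this _ _
  rw [show 9 = 3 * 3 from rfl, pow_mul]
  ext1
  · rw [G.h_pow, h1, one_pow]; rfl
  · rw [h3]; rfl
  · rw [G.k_pow, h2, z_cube]; rfl

end Pool.Agent.Helper804.Cut
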