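import Pool.Agent.Helper804.Cut.Cases

set_option autoImplicit false

namespace Pool.Agent.Helper804.Cut

open Matrix

lemma pow_thirteen (x : G) (hx : x.h ^ 3 = 1) : x ^ 13 = x ^ 4 := by
  rw [show 13 = 9 + 4 from rfl, pow_add, pow_nine x hx, one_mul]

lemma four_h (x : G) (hx : x.h ^ 3 = 1) : (x ^ 4).h = x.h := by
  rw [G.h_pow, pow_succ, hx, one_mul]

/-- sufficient condition for conjugacy -/
lemma Cj_of (x : G) (hx : x.h ^ 3 = 1) (l : SL) (hl : l * x.h = x.h * l) (δ : C)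
    (hδ : δ * x.k = x.k ^ 4 * δ) (u : V)
    (hu : H l * x.v + u * A x.k = H x.h * u +
      (x.v + Δ x.h x.k (Δ x.h x.k (x.v * A x.k))) * A δ) : Cj x (x ^ 13) := by
  rw [pow_thirteen x hx]
  refine ⟨⟨l, u, δ⟩, ?_⟩
  rw [G.mul_def, G.mul_def, four_h x hx, v_four x hx, G.k_pow]
  simp only [G.mk.injEq]
  exact ⟨hl, hu, hδ⟩

lemma case_zero (x : G) (hx : x.h ^ 3 = 1) (ha : x.k.a = 0) : Cj x (x ^ 13) := by
  refine Cj_of x hx 1 (by rw [one_mul, mul_one]) 1 (by rw [k_four_of _ ha, one_mul, mul_one])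
    (Δ x.h x.k (x.v * A x.k)) ?_
  rw [A_one, Matrix.mul_one, G.H_one, Matrix.one_mul, Δ_apply x.h x.k (Δ x.h x.k (x.v * A x.k))]
  abel

/-- the key covering lemma in dimension three -/
lemma key : ∀ p0 p1 p2 q0 q1 q2 : F, ∃ b e : F, ∃ l : SL,
    (p0 = l.1 0 0 * p0 + l.1 0 1 * q0 ∧ p1 + b * p0 = l.1 0 0 * p1 + l.1 0 1 * q1 ∧
      p2 + (1 - b) * p1 + e * p0 = l.1 0 0 * p2 + l.1 0 1 * q2) ∧
    (q0 = l.1 1 0 * p0 + l.1 1 1 * q0 ∧ q1 + b * q0 = l.1 1 0 * p1 + l.1 1 1 * q1 ∧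
      q2 + (1 - b) * q1 + e * q0 = l.1 1 0 * p2 + l.1 1 1 * q2) := by
  decide +kernel

lemma Δ_one (k : C) (w : V) : Δ 1 k w = w * (A k - 1) := by
  rw [Δ_apply, G.H_one, Matrix.one_mul, Matrix.mul_sub, Matrix.mul_one]

/-- `N² D = D N²` -/
lemma comm_sq (k δ : C) (h : δ * k = k ^ 4 * δ) :
    (A k - 1) * (A k - 1) * A δ = A δ * ((A k - 1) * (A k - 1)) := by
  have h1 : (A k - 1) * A δ = A δ * (A k - 1) + Z k := by
    rw [Matrix.sub_mul, Matrix.one_mul, comm_Z k δ h, Matrix.mul_sub, Matrix.mul_one]; abel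
  have h2 : Z k * (A k - 1) = 0 := by
    rw [Matrix.mul_sub, Matrix.mul_one, Z_mul_A, sub_self]
  have h3 : (A k - 1) * Z k = 0 := by
    rw [Matrix.sub_mul, Matrix.one_mul, A_mul_Z, sub_self]
  rw [Matrix.mul_assoc, h1, Matrix.mul_add, h3, add_zero, ← Matrix.mul_assoc, h1, Matrix.add_mul,
    h2, add_zero, Matrix.mul_assoc]

/-- reduction of the case `h = 1` to a linear equation -/
lemma case_one_aux (x : G) (hx : x.h = 1) (l : SL) (δ : C)
    (hδ : δ * x.k = x.k ^ 4 * δ) (u : V)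
    (hu : u * (A x.k - 1) = x.v * A δ - H l * x.v) : Cj x (x ^ 13) := by
  refine Cj_of x (by rw [hx, one_pow]) l (by rw [hx, one_mul, mul_one]) δ hδ
    (u + x.v * A x.k * A δ * (A x.k - 1)) ?_
  rw [hx, Δ_one, Δ_one, G.H_one, Matrix.one_mul]
  have h1 : x.v * A x.k * (A x.k - 1) * (A x.k - 1) * A δ =
      x.v * A x.k * A δ * (A x.k - 1) * (A x.k - 1) := by
    have := comm_sq x.k δ hδ
    rw [Matrix.mul_assoc (x.v * A x.k), Matrix.mul_assoc (x.v * A x.k), this,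
      Matrix.mul_assoc (x.v * A x.k * A δ), Matrix.mul_assoc (x.v * A x.k)]
  rw [Matrix.add_mul x.v, h1]
  generalize x.v * A x.k * A δ * (A x.k - 1) = w
  have h2 : w * (A x.k - 1) = w * A x.k - w := by rw [Matrix.mul_sub, Matrix.mul_one]
  have h3 : u * A x.k = x.v * A δ - H l * x.v + u := by
    rw [← hu, Matrix.mul_sub, Matrix.mul_one]; abel
  rw [Matrix.add_mul, h3, h2]; abel

lemma case_one (x : G) (hx : x.h = 1) (ha : x.k.a ≠ 0) : Cj x (x ^ 13) := by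
  have haa := sq_one x.k.a ha
  by_cases hd : x.k.d + mm x.k.a = 0
  · obtain ⟨b, e, l, ⟨h00, h01, h02⟩, ⟨h10, h11, h12⟩⟩ := key (x.v 0 0)
      (x.v 0 2 - x.k.a * x.k.b * x.v 0 1)
      (x.v 0 4 - x.k.a * x.k.c * x.v 0 3 + (mm x.k.a * x.k.c - x.k.a * x.k.e) * x.v 0 1)
      (x.v 1 0) (x.v 1 2 - x.k.a * x.k.b * x.v 1 1)
      (x.v 1 4 - x.k.a * x.k.c * x.v 1 3 + (mm x.k.a * x.k.c - x.k.a * x.k.e) * x.v 1 1)
    have hrel := delta_rel x.k ha b e 0
    have hd' := hd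
    simp only [mm] at hd'
    have hrow : ∀ i j, (x.v * A ⟨0, b, x.k.a * (b * (x.k.d + mm x.k.a) - x.k.b * (1 - b)), 1 - b,
        e, 0⟩ - H l * x.v) i j = (x.v i ᵥ* A ⟨0, b, x.k.a * (b * (x.k.d + mm x.k.a)
        - x.k.b * (1 - b)), 1 - b, e, 0⟩) j - (l.1 i 0 * x.v 0 j + l.1 i 1 * x.v 1 j) := by
      intro i j
      rw [Matrix.sub_apply, Matrix.mul_apply_eq_vecMul, Matrix.mul_apply, Fin.sum_univ_two]
    obtain ⟨u, hu⟩ := solveN' x.k ha (x.v * A ⟨0, b, x.k.a * (b * (x.k.d + mm x.k.a)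
        - x.k.b * (1 - b)), 1 - b, e, 0⟩ - H l * x.v)
      (by
        intro i
        rw [hrow, vA]
        fin_cases i
        · simp
          linear_combination h00
        · simp
          linear_combination h10)
      (by
        intro i
        rw [hrow, hrow, vA]
        fin_cases i
        · simp
          linear_combination h01
        · simp
          linear_combination h11)
      (by
        intro _ i
        rw [hrow, hrow, hrow, vA]
        fin_cases i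
        · simp [mm] at h02 ⊢
          linear_combination h02 + x.k.a * b * x.v 0 1 * hd'
        · simp [mm] at h12 ⊢
          linear_combination h12 + x.k.a * b * x.v 1 1 * hd')
    exact case_one_aux x hx l _ hrel u hu
  · have hrel := delta_rel x.k ha 0 0 0
    have hrow : ∀ i j, (x.v * A ⟨0, 0, x.k.a * (0 * (x.k.d + mm x.k.a) - x.k.b * (1 - 0)), 1 - 0,
        0, 0⟩ - H 1 * x.v) i j = (x.v i ᵥ* A ⟨0, 0, x.k.a * (0 * (x.k.d + mm x.k.a)
        - x.k.b * (1 - 0)), 1 - 0, 0, 0⟩) j - x.v i j := by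
      intro i j
      rw [Matrix.sub_apply, Matrix.mul_apply_eq_vecMul, G.H_one, Matrix.one_mul]
    obtain ⟨u, hu⟩ := solveN' x.k ha (x.v * A ⟨0, 0, x.k.a * (0 * (x.k.d + mm x.k.a)
        - x.k.b * (1 - 0)), 1 - 0, 0, 0⟩ - H 1 * x.v)
      (by
        intro i
        rw [hrow, vA]; simp)
      (by
        intro i
        rw [hrow, hrow, vA]; simp)
      (fun h => absurd h hd)
    exact case_one_aux x hx 1 _ hrel u hu


/-! ### the case `h = U s` -/

lemma case_U_aux (x : G) (hx : x.h ^ 3 = 1) (δ : C) (hδ : δ * x.k = x.k ^ 4 * δ) (u : V)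
    (hu : Δ x.h x.k u = x.v * A δ - x.v) : Cj x (x ^ 13) := by
  have hZ : ∀ w : V, Δ x.h x.k w * A δ = Δ x.h x.k (w * A δ) + w * Z x.k := by
    intro w
    rw [Δ_apply, Δ_apply, Matrix.sub_mul, Matrix.mul_assoc w, comm_Z x.k δ hδ, Matrix.mul_add,
      Matrix.mul_assoc w, Matrix.mul_assoc (H x.h)]
    abel
  have hZ' : ∀ w : V, Δ x.h x.k w * Z x.k = Δ x.h x.k (w * Z x.k) := by
    intro w
    rw [Δ_apply, Δ_apply, Matrix.sub_mul, Matrix.mul_assoc w, A_mul_Z, Matrix.mul_assoc w,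
      Z_mul_A, Matrix.mul_assoc (H x.h)]
  refine Cj_of x hx 1 (by rw [one_mul, mul_one]) δ hδ
    (u + (Δ x.h x.k (x.v * A x.k * A δ) + x.v * A x.k * Z x.k + x.v * A x.k * Z x.k)) ?_
  rw [G.H_one, Matrix.one_mul, Matrix.add_mul x.v, hZ, hZ, hZ']
  generalize x.v * A x.k = w at *
  have h1 : ∀ u : V, u * A x.k = Δ x.h x.k u + H x.h * u := by
    intro u; rw [Δ_apply]; abel
  rw [h1, map_add, hu, map_add, map_add]
  abel

lemma case_U (x : G) (s : F) (hs : s * s = 1) (hx : x.h = U s) (ha : x.k.a ≠ 0) :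
    Cj x (x ^ 13) := by
  have haa := sq_one x.k.a ha
  have hx3 : x.h ^ 3 = 1 := by
    have h : ∀ s : F, (U s) ^ 3 = 1 := by decide +kernel
    rw [hx, h]
  obtain ⟨δ, hδ, u, hu⟩ := rowY x.k ha (s • x.v 1 + x.v 0 ᵥ* (A x.k - 1))
  -- the correction for `Z`
  obtain ⟨u', hu'⟩ := solveNN x.k ha (x.v 0 ᵥ* Z x.k) (by rw [vZ]; simp) (by rw [vZ]; simp)
    (by rw [vZ]; simp) (by rw [vZ]; simp)
  set p : Fin 2 → Row := fun i => x.v i ᵥ* A δ - x.v i with hp
  have hN : (A x.k - 1) * A δ = A δ * (A x.k - 1) + Z x.k := by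
    rw [Matrix.sub_mul, Matrix.one_mul, comm_Z x.k δ hδ, Matrix.mul_sub, Matrix.mul_one]; abel
  have h1 : (u - u') ᵥ* ((A x.k - 1) * (A x.k - 1)) = s • p 1 + p 0 ᵥ* (A x.k - 1) := by
    rw [Matrix.sub_vecMul, hu, hu', hp]
    simp only
    rw [Matrix.add_vecMul, Matrix.vecMul_vecMul, hN, Matrix.smul_vecMul, smul_sub,
      Matrix.sub_vecMul, Matrix.vecMul_vecMul, Matrix.vecMul_add]
    abel
  set q : Fin 2 → Row := ![u - u', s • ((u - u') ᵥ* (A x.k - 1) - p 0)] with hq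
  refine case_U_aux x hx3 δ hδ (Matrix.of q) ?_
  rw [Δ_apply, hx]
  have hrow : ∀ i, (Matrix.of q * A x.k - H (U s) * Matrix.of q) i =
      q i ᵥ* A x.k - ((U s).1 i 0 • q 0 + (U s).1 i 1 • q 1) := by
    intro i
    ext j
    rw [Matrix.sub_apply, Matrix.mul_apply_eq_vecMul, Matrix.mul_apply, Fin.sum_univ_two]
    rfl
  have hq1 : ∀ r : Row, r ᵥ* (A x.k - 1) = r ᵥ* A x.k - r := by
    intro r; rw [Matrix.vecMul_sub, Matrix.vecMul_one]
  have hgoal : ∀ i, (x.v * A δ - x.v) i = p i := by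
    intro i
    ext j
    rw [Matrix.sub_apply, Matrix.mul_apply_eq_vecMul]
    rfl
  have h0 : q 0 ᵥ* A x.k - ((U s).1 0 0 • q 0 + (U s).1 0 1 • q 1) = p 0 := by
    have e0 : (U s).1 0 0 = 1 := rfl
    have e1 : (U s).1 0 1 = s := rfl
    have f0 : q 0 = u - u' := rfl
    have f1 : q 1 = s • ((u - u') ᵥ* (A x.k - 1) - p 0) := rfl
    rw [e0, e1, f0, f1, smul_smul, hs, one_smul, one_smul, hq1]
    abel
  have h2 : q 1 ᵥ* A x.k - ((U s).1 1 0 • q 0 + (U s).1 1 1 • q 1) = p 1 := by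
    have e0 : (U s).1 1 0 = 0 := rfl
    have e1 : (U s).1 1 1 = 1 := rfl
    have f1 : q 1 = s • ((u - u') ᵥ* (A x.k - 1) - p 0) := rfl
    rw [e0, e1, zero_smul, one_smul, zero_add, ← hq1, f1, Matrix.smul_vecMul, Matrix.sub_vecMul,
      Matrix.vecMul_vecMul, h1, add_sub_cancel_right, smul_smul, hs, one_smul]
  funext i
  rw [hrow, hgoal]
  fin_cases i
  · exact h0
  · exact h2

end Pool.Agent.Helper804.Cut
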