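import Pool.Agent.Helper804.Cut.Base

set_option autoImplicit false

namespace Pool.Agent.Helper804.Cut

open Matrix

lemma F_cases (a : F) : a = 0 ∨ a = 1 ∨ a = -1 := by
  revert a; decide

lemma k_cube (k : C) : k ^ 3 = ⟨0, 0, 0, 0, 0, -k.a⟩ := by
  have h : ∀ a b c d e f : F, (⟨a, b, c, d, e, f⟩ : C) * ⟨a, b, c, d, e, f⟩ * ⟨a, b, c, d, e, f⟩
      = ⟨0, 0, 0, 0, 0, -a⟩ := by decide +kernel
  rw [pow_succ, pow_two]
  exact h k.a k.b k.c k.d k.e k.f

lemma z_cube (t : F) : (⟨0, 0, 0, 0, 0, t⟩ : C) ^ 3 = 1 := by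
  rw [k_cube]
  simp [Cut.one_def]

lemma k_nine (k : C) : k ^ 9 = 1 := by
  rw [show 9 = 3 * 3 from rfl, pow_mul, k_cube k, z_cube]

lemma k_four (k : C) : k ^ 4 = ⟨k.a, k.b, k.c, k.d, k.e, k.f - k.a⟩ := by
  rw [pow_succ, k_cube, mul_def]
  simp only [mm, C.mk.injEq]
  refine ⟨by ring, by ring, by ring, by ring, by ring, by ring⟩

lemma k_four_of (k : C) (h : k.a = 0) : k ^ 4 = k := by
  rw [k_four, h]
  ext <;> simp [h]

lemma sl_twelve : ∀ h : SL, h ^ 12 = 1 := by decide +kernel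

lemma sl_cases : ∀ h : SL, h ^ 3 = 1 ∨ H (h ^ 1) = -1 ∨ H (h ^ 2) = -1 ∨ H (h ^ 3) = -1 := by
  decide +kernel

lemma sl_cases' : ∀ h : SL, h ^ 6 = 1 ∨ H (h ^ 2) = -1 := by
  decide +kernel

lemma sl_inv : ∀ h : SL, H (h ^ 2) = -1 → ∃ l : SL, l * h = h ^ 19 * l := by
  decide +kernel

/-- upper unitriangular elements of `SL₂(3)` -/
def U (s : F) : SL := ⟨!![1, s; 0, 1], by simp [Matrix.det_fin_two]⟩

lemma sl_conj : ∀ h : SL, h ^ 3 = 1 → h = 1 ∨ ∃ l : SL, l * h * l⁻¹ = U 1 ∨ l * h * l⁻¹ = U (-1) := by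
  decide +kernel

lemma A_pow (k : C) (n : ℕ) : A (k ^ n) = A k ^ n := by
  induction n with
  | zero => rw [pow_zero, pow_zero, A_one]
  | succ n ih => rw [pow_succ, pow_succ, A_mul, ih]

lemma H_pow (h : SL) (n : ℕ) : H (h ^ n) = H h ^ n := by
  induction n with
  | zero => rw [pow_zero, pow_zero, G.H_one]
  | succ n ih => rw [pow_succ, pow_succ, G.H_mul, ih]

/-- the map `u ↦ u A - h u` -/
def Δ (h : SL) (k : C) : V →+ V where
  toFun u := u * A k - H h * u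
  map_zero' := by simp
  map_add' u v := by rw [Matrix.add_mul, Matrix.mul_add]; abel

lemma Δ_apply (h : SL) (k : C) (u : V) : Δ h k u = u * A k - H h * u := rfl

lemma Δ_surj (h : SL) (k : C) (n : ℕ) (hn : H (h ^ n) = -1) (w : V) :
    ∃ u : V, u * A k - H h * u = w := by
  have hinj : Function.Injective (Δ h k) := by
    rw [injective_iff_map_eq_zero]
    intro u hu
    rw [Δ_apply, sub_eq_zero] at hu
    have h1 : ∀ j : ℕ, u * A (k ^ j) = H (h ^ j) * u := by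
      intro j
      induction j with
      | zero => rw [pow_zero, pow_zero, A_one, G.H_one, Matrix.mul_one, Matrix.one_mul]
      | succ j ih =>
        rw [pow_succ, A_mul, ← Matrix.mul_assoc, ih, Matrix.mul_assoc, hu, ← Matrix.mul_assoc,
          ← G.H_mul, ← pow_succ]
    have h2 := h1 (n * 9)
    rw [mul_comm n 9, pow_mul, k_nine, one_pow, A_one, Matrix.mul_one, mul_comm 9 n, pow_mul,
      H_pow, hn] at h2
    have h3 : (-1 : Matrix (Fin 2) (Fin 2) F) ^ 9 = -1 := by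
      rw [Odd.neg_one_pow]; decide
    rw [h3, Matrix.neg_mul, Matrix.one_mul] at h2
    ext i j
    have h4 := congrFun (congrFun h2 i) j
    simp only [Matrix.neg_apply] at h4
    rw [Matrix.zero_apply]
    revert h4
    generalize u i j = t
    revert t; decide
  have hsurj : Function.Surjective (Δ h k) := Finite.injective_iff_surjective.1 hinj
  exact hsurj w

/-- conjugating element for `k ↦ k ^ 4` -/
lemma exists_delta (k : C) : ∃ δ : C, δ * k = k ^ 4 * δ := by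
  by_cases ha : k.a = 0
  · exact ⟨1, by rw [k_four_of k ha, mul_one, one_mul]⟩
  · refine ⟨⟨0, 1, k.a * (k.d + mm k.a), 0, 0, 0⟩, ?_⟩
    rw [k_four]
    have h : ∀ a b c d e f : F, a ≠ 0 → (⟨0, 1, a * (d + mm a), 0, 0, 0⟩ : C) * ⟨a, b, c, d, e, f⟩
      = ⟨a, b, c, d, e, f - a⟩ * ⟨0, 1, a * (d + mm a), 0, 0, 0⟩ := by decide +kernel
    exact h k.a k.b k.c k.d k.e k.f ha

/-- the relation used for conjugacy -/
def Cj (x y : G) : Prop := ∃ g : G, g * x = y * g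

lemma case_neg (x : G) (n : ℕ) (hn : H (x.h ^ n) = -1) : Cj x (x ^ 13) := by
  have h1 : (x ^ 13).h = x.h := by
    rw [G.h_pow, pow_succ, sl_twelve, one_mul]
  have h2 : (x ^ 13).k = x.k ^ 4 := by
    rw [G.k_pow, show 13 = 9 + 4 from rfl, pow_add, k_nine, one_mul]
  obtain ⟨δ, hδ⟩ := exists_delta x.k
  obtain ⟨u, hu⟩ := Δ_surj x.h x.k n hn ((x ^ 13).v * A δ - x.v)
  refine ⟨⟨1, u, δ⟩, ?_⟩
  rw [G.mul_def, G.mul_def, h1, h2]
  simp only [G.mk.injEq, one_mul, mul_one, G.H_one, Matrix.one_mul, hδ, and_true, true_and]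
  have h3 : u * A x.k = (x ^ 13).v * A δ - x.v + H x.h * u := by rw [← hu]; abel
  rw [h3]; abel

lemma case_four (x : G) (hx : H (x.h ^ 2) = -1) : Cj x (x ^ 19) := by
  obtain ⟨l, hl⟩ := sl_inv x.h hx
  have h1 : (x ^ 19).h = x.h ^ 19 := G.h_pow x 19
  have h2 : (x ^ 19).k = x.k := by
    rw [G.k_pow, show 19 = 9 * 2 + 1 from rfl, pow_add, pow_mul, k_nine, one_pow, one_mul, pow_one]
  have h3 : H ((x.h ^ 19) ^ 2) = -1 := by
    rw [← pow_mul, show 19 * 2 = 12 * 3 + 2 from rfl, pow_add, pow_mul, sl_twelve, one_pow,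
      one_mul, hx]
  obtain ⟨u, hu⟩ := Δ_surj (x.h ^ 19) x.k 2 h3 ((x ^ 19).v - H l * x.v)
  refine ⟨⟨l, u, 1⟩, ?_⟩
  rw [G.mul_def, G.mul_def, h1, h2]
  simp only [G.mk.injEq, one_mul, mul_one, A_one, Matrix.mul_one, hl, and_true, true_and]
  have h4 : u * A x.k = (x ^ 19).v - H l * x.v + H (x.h ^ 19) * u := by rw [← hu]; abel
  rw [h4]; abel

end Pool.Agent.Helper804.Cut
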