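import Pool.Agent.Helper804.Cut.Conj

set_option autoImplicit false

namespace Pool.Agent.Helper804.Cut

open Matrix

lemma Cj_conj (x g : G) (h : Cj (g * x * g⁻¹) ((g * x * g⁻¹) ^ 13)) : Cj x (x ^ 13) := by
  obtain ⟨c, hc⟩ := h
  rw [conj_pow] at hc
  refine ⟨g⁻¹ * c * g, ?_⟩
  have : g⁻¹ * (c * (g * x * g⁻¹)) * g = g⁻¹ * (g * x ^ 13 * g⁻¹ * c) * g := by rw [hc]
  simpa [mul_assoc] using this

lemma all_thirteen (x : G) : Cj x (x ^ 13) := by
  rcases sl_cases x.h with h | h | h | h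
  · by_cases ha : x.k.a = 0
    · exact case_zero x h ha
    · rcases sl_conj x.h h with h1 | ⟨l, h1⟩
      · exact case_one x h1 ha
      · apply Cj_conj x ⟨l, 0, 1⟩
        have hk : ((⟨l, 0, 1⟩ : G) * x * (⟨l, 0, 1⟩ : G)⁻¹).k = x.k := by
          show 1 * x.k * 1⁻¹ = x.k
          rw [one_mul, inv_one, mul_one]
        have hh : ((⟨l, 0, 1⟩ : G) * x * (⟨l, 0, 1⟩ : G)⁻¹).h = l * x.h * l⁻¹ := rfl
        rcases h1 with h1 | h1
        · exact case_U _ 1 (by decide) (hh.trans h1) (by rw [hk]; exact ha)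
        · exact case_U _ (-1) (by decide) (hh.trans h1) (by rw [hk]; exact ha)
  · exact case_neg x 1 h
  · exact case_neg x 2 h
  · exact case_neg x 3 h

lemma all_nineteen (x : G) : Cj x (x ^ 19) := by
  rcases sl_cases' x.h with h | h
  · have h1 : x ^ 18 = 1 := by
      rw [show 18 = 2 * 9 from rfl, pow_mul]
      apply pow_nine
      rw [G.h_pow, ← pow_mul]
      exact h
    exact ⟨1, by rw [pow_succ, h1, one_mul, mul_one]⟩
  · exact case_four x h

lemma pow_36 (x : G) : x ^ 36 = 1 := by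
  rw [show 36 = 4 * 9 from rfl, pow_mul]
  apply pow_nine
  rw [G.h_pow, ← pow_mul]
  exact sl_twelve x.h

lemma isConj_of_Cj {x y : G} (h : Cj x y) : IsConj y x := by
  obtain ⟨c, hc⟩ := h
  rw [isConj_comm, isConj_iff]
  exact ⟨c, by rw [hc]; group⟩

lemma conj13 (x : G) : IsConj (x ^ 13) x := isConj_of_Cj (all_thirteen x)
lemma conj19 (x : G) : IsConj (x ^ 19) x := isConj_of_Cj (all_nineteen x)

lemma pow_mod (x : G) (n : ℕ) : x ^ n = x ^ (n % 36) := by
  conv_lhs => rw [← Nat.div_add_mod n 36, pow_add, pow_mul, pow_36, one_pow, one_mul]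

lemma conj_unit (x : G) (k : ℕ) (hk : k < 36) (h : k % 6 = 1) : IsConj (x ^ k) x := by
  have h25 : ∀ x : G, IsConj (x ^ 25) x := by
    intro x
    have h1 := (conj13 (x ^ 13)).trans (conj13 x)
    rwa [← pow_mul, pow_mod] at h1
  have h31 : ∀ x : G, IsConj (x ^ 31) x := by
    intro x
    have h1 := (conj19 (x ^ 13)).trans (conj13 x)
    rwa [← pow_mul, pow_mod] at h1
  have h7 : ∀ x : G, IsConj (x ^ 7) x := by
    intro x
    have h1 := (conj19 (x ^ 25)).trans (h25 x)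
    rwa [← pow_mul, pow_mod] at h1
  have hk' : k = 1 ∨ k = 7 ∨ k = 13 ∨ k = 19 ∨ k = 25 ∨ k = 31 := by omega
  rcases hk' with rfl | rfl | rfl | rfl | rfl | rfl
  · rw [pow_one]
  · exact h7 x
  · exact conj13 x
  · exact conj19 x
  · exact h25 x
  · exact h31 x

lemma arith : ∀ n ∈ ({1, 2, 3, 4, 6, 9, 12, 18, 36} : Finset ℕ), ∀ k < 36, ∀ l < 36,
    (k * l) % n = 1 % n → ∃ k' < 36, (k' % 6 = 1 ∨ k' % 6 = 5) ∧ k' % n = k % n := by
  decide +kernel

/-- `G` is a cut group -/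
theorem cut (x y : G) (h : Subgroup.zpowers y = Subgroup.zpowers x) :
    IsConj y x ∨ IsConj y x⁻¹ := by
  have h1 : y ∈ Subgroup.zpowers x := by rw [← h]; exact Subgroup.mem_zpowers y
  have h2 : x ∈ Subgroup.zpowers y := by rw [h]; exact Subgroup.mem_zpowers x
  rw [← mem_powers_iff_mem_zpowers, Submonoid.mem_powers_iff] at h1 h2
  obtain ⟨k, hk⟩ := h1
  obtain ⟨l, hl⟩ := h2
  have hn : orderOf x ∣ 36 := orderOf_dvd_of_pow_eq_one (pow_36 x)
  rw [pow_mod] at hk hl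
  have h3 : x ^ ((k % 36) * (l % 36)) = x ^ 1 := by
    rw [pow_mul, hk, hl, pow_one]
  rw [pow_eq_pow_iff_modEq] at h3
  have h4 : orderOf x ∈ ({1, 2, 3, 4, 6, 9, 12, 18, 36} : Finset ℕ) := by
    have : orderOf x ∈ Nat.divisors 36 := Nat.mem_divisors.2 ⟨hn, by norm_num⟩
    have h5 : Nat.divisors 36 = {1, 2, 3, 4, 6, 9, 12, 18, 36} := by decide +kernel
    rwa [h5] at this
  obtain ⟨k', hk', hu, hmod⟩ := arith _ h4 (k % 36) (Nat.mod_lt _ (by norm_num)) (l % 36)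
    (Nat.mod_lt _ (by norm_num)) h3
  have h6 : y = x ^ k' := by
    rw [← hk, pow_eq_pow_iff_modEq]
    exact hmod.symm
  rcases hu with hu | hu
  · left
    rw [h6]; exact conj_unit x k' hk' hu
  · right
    have h7 : x ^ k' = x⁻¹ ^ (36 - k') := by
      rw [inv_pow, eq_inv_iff_mul_eq_one, ← pow_add, show k' + (36 - k') = 36 by omega, pow_36]
    rw [h6, h7]
    exact conj_unit x⁻¹ (36 - k') (by omega) (by omega)

/-! ### the Sylow subgroup -/

lemma U_mul (s t : F) : U s * U t = U (s + t) := by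
  revert s t; decide +kernel

lemma U_one_pow (n : ℕ) : (U 1) ^ n = U (n : F) := by
  induction n with
  | zero => rw [pow_zero, Nat.cast_zero]; decide +kernel
  | succ n ih => rw [pow_succ, ih, U_mul, Nat.cast_succ]

lemma mem_U (h : SL) (hh : h ∈ Subgroup.zpowers (U 1)) : ∃ s : F, h = U s := by
  rw [← mem_powers_iff_mem_zpowers, Submonoid.mem_powers_iff] at hh
  obtain ⟨n, hn⟩ := hh
  exact ⟨n, by rw [← hn, U_one_pow]⟩

lemma U_cube : ∀ s : F, (U s) ^ 3 = 1 := by decide +kernel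

/-- the Sylow subgroup, as a subgroup -/
def P₀ : Subgroup G := (Subgroup.zpowers (U 1)).comap G.π

lemma P₀_h (x : G) (hx : x ∈ P₀) : ∃ s : F, x.h = U s := mem_U _ hx

lemma P₀_isPGroup : IsPGroup 3 P₀ := by
  intro g
  refine ⟨2, ?_⟩
  obtain ⟨s, hs⟩ := P₀_h g.1 g.2
  apply Subtype.ext
  show (g : G) ^ 3 ^ 2 = 1
  exact pow_nine g.1 (by rw [hs, U_cube])

lemma card_SL : Nat.card SL = 24 := by
  rw [Nat.card_eq_fintype_card]
  decide +kernel

lemma P₀_index : ¬ 3 ∣ P₀.index := by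
  have hsurj : Function.Surjective G.π := fun h => ⟨⟨h, 0, 1⟩, rfl⟩
  have h1 : P₀.index = (Subgroup.zpowers (U 1)).index :=
    Subgroup.index_comap_of_surjective _ hsurj
  have h2 := Subgroup.card_mul_index (Subgroup.zpowers (U 1))
  have h3 : orderOf (U 1) = 3 := by
    have : Fact (Nat.Prime 3) := ⟨by norm_num⟩
    exact orderOf_eq_prime (U_cube 1) (by decide +kernel)
  rw [Nat.card_zpowers, h3, card_SL] at h2
  rw [h1]
  omega

instance : Fact (Nat.Prime 3) := ⟨by norm_num⟩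

/-- the Sylow subgroup -/
noncomputable def P : Sylow 3 G := P₀_isPGroup.toSylow P₀_index

lemma mem_P (x : G) : x ∈ P ↔ x ∈ P₀ := Iff.rfl

/-- the element with a bad cyclic subgroup -/
def x₀ : G := ⟨1, !![0, 0, 1, 0, 0, 0; 1, 0, 0, 0, 0, 0], ⟨1, 0, 0, 0, 0, 0⟩⟩

lemma x₀_four_v : (x₀ ^ 4).v = !![0, 0, 1, 0, 0, 0; 1, 0, 0, 1, 0, -1] := by
  decide +kernel

lemma x₀_four_k : (x₀ ^ 4).k = ⟨1, 0, 0, 0, 0, -1⟩ := by
  decide +kernel

lemma x₀_four_h : (x₀ ^ 4).h = 1 := by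
  rw [G.h_pow]; exact one_pow 4

lemma not_conj (g : G) (s : F) (hs : g.h = U s) (hg : g * x₀ = x₀ ^ 4 * g) : False := by
  have hk := congrArg (fun y : G => y.k.f) hg
  have hv := congrArg G.v hg
  rw [G.mul_def, G.mul_def] at hv
  simp only [x₀_four_v, x₀_four_h, G.H_one, Matrix.one_mul] at hv
  simp only [G.mul_def, x₀_four_k, Cut.mul_def] at hk
  have e : ∀ i j, (H g.h * x₀.v) i j + (g.v i ᵥ* A x₀.k) j = g.v i j +
      ((!![0, 0, 1, 0, 0, 0; 1, 0, 0, 1, 0, -1] : V) i ᵥ* A g.k) j := by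
    intro i j
    have := congrFun (congrFun hv i) j
    rwa [Matrix.add_apply, Matrix.add_apply, Matrix.mul_apply_eq_vecMul g.v,
      Matrix.mul_apply_eq_vecMul _ (A g.k)] at this
  have e04 := e 0 4
  have e12 := e 1 2
  rw [hs, vA, vA, Matrix.mul_apply, Fin.sum_univ_two] at e04 e12
  simp [x₀, U, mm] at e04 e12 hk
  have hb : g.k.b = 0 := by
    have h0 : H ⟨!![1, s; 0, 1], by simp [Matrix.det_fin_two]⟩ 1 0 = 0 := rfl
    rw [h0] at e12
    linear_combination -e12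
  have h1 : (0 : F) = 1 := by
    linear_combination -hk - hb - e04
  exact absurd h1 (by decide)

lemma x₀_mem : x₀ ∈ P₀ := by
  show G.π x₀ ∈ Subgroup.zpowers (U 1)
  exact Subgroup.one_mem _

lemma x₀_zpowers (x : P₀) (hx : (x : G) = x₀) :
    Subgroup.zpowers (x ^ 4) = Subgroup.zpowers x := by
  have h9 : x ^ 9 = 1 := by
    apply Subtype.ext
    show (x : G) ^ 9 = 1
    rw [hx]
    exact pow_nine x₀ (one_pow 3)
  apply le_antisymm
  · rw [Subgroup.zpowers_le]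
    exact Subgroup.pow_mem _ (Subgroup.mem_zpowers x) 4
  · rw [Subgroup.zpowers_le]
    have h28 : (x ^ 4) ^ 7 = x := by
      rw [← pow_mul, show 4 * 7 = 9 * 3 + 1 from rfl, pow_add, pow_mul, h9, one_pow, one_mul,
        pow_one]
    have h29 := Subgroup.pow_mem _ (Subgroup.mem_zpowers (x ^ 4)) 7
    rwa [h28] at h29

/-- the negation of the statement `Sylow 3-subgroups of cut groups are cut` -/
theorem not_cut :
    ¬ (∀ (G : Type) [Group G] [Finite G],
      (∀ x y : G, Subgroup.zpowers y = Subgroup.zpowers x → IsConj y x ∨ IsConj y x⁻¹) →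
      ∀ P : Sylow 3 G,
        ∀ x y : ↥(P : Subgroup G),
          Subgroup.zpowers y = Subgroup.zpowers x → IsConj y x ∨ IsConj y x⁻¹) := by
  intro h
  have h1 := h G cut P
  have h2 : ∀ x y : P₀, Subgroup.zpowers y = Subgroup.zpowers x → IsConj y x ∨ IsConj y x⁻¹ := h1
  have h3 := h2 ⟨x₀, x₀_mem⟩ (⟨x₀, x₀_mem⟩ ^ 4) (x₀_zpowers ⟨x₀, x₀_mem⟩ rfl)
  rcases h3 with h3 | h3
  · rw [isConj_comm, isConj_iff] at h3
    obtain ⟨c, hc⟩ := h3
    have h4 : (c : G) * x₀ * (c : G)⁻¹ = x₀ ^ 4 := congrArg Subtype.val hc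
    obtain ⟨s, hs⟩ := P₀_h c.1 c.2
    refine not_conj c.1 s hs ?_
    rw [← h4]; group
  · rw [isConj_iff] at h3
    obtain ⟨c, hc⟩ := h3
    have h4 : (c : G) * x₀ ^ 4 * (c : G)⁻¹ = x₀⁻¹ := congrArg Subtype.val hc
    have h5 : (c : G) * x₀ ^ 4 = x₀⁻¹ * c := by rw [← h4]; group
    have h6 := congrArg (fun y : G => y.k.a) h5
    have h7 : ((c : G) * x₀ ^ 4).k.a = (c : G).k.a + 1 := by
      show ((c : G).k * (x₀ ^ 4).k).a = _
      rw [x₀_four_k]; rfl
    have h8 : (x₀⁻¹ * (c : G)).k.a = -1 + (c : G).k.a := rfl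
    have h9 : (c : G).k.a + 1 = -1 + (c : G).k.a := by rw [← h7, ← h8]; exact h6
    have h10 : (1 : F) = -1 := by linear_combination h9
    exact absurd h10 (by decide)

end Pool.Agent.Helper804.Cut
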