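import Pool.Agent.Helper804.Cut.Facts

set_option autoImplicit false

namespace Pool.Agent.Helper804.Cut

open Matrix

abbrev Row := Fin 6 → F

lemma vA (r : Row) (k : C) : r ᵥ* A k = ![r 0, r 1 + k.a * r 0, r 2 + k.b * r 0,
    r 3 + k.a * r 1 + mm k.a * r 0, r 4 + k.c * r 1 + (k.d + mm k.a) * r 2 + k.e * r 0,
    r 5 - k.a * r 2 - k.a * r 3 + k.d * r 1 + k.f * r 0] := by
  ext i
  fin_cases i <;> simp [A, Matrix.vecMul, dotProduct, Fin.sum_univ_succ] <;> ring1

lemma vN (r : Row) (k : C) : r ᵥ* (A k - 1) = ![0, k.a * r 0, k.b * r 0,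
    k.a * r 1 + mm k.a * r 0, k.c * r 1 + (k.d + mm k.a) * r 2 + k.e * r 0,
    - k.a * r 2 - k.a * r 3 + k.d * r 1 + k.f * r 0] := by
  rw [Matrix.vecMul_sub, Matrix.vecMul_one, vA]
  ext i
  fin_cases i <;> simp <;> ring1

lemma vNN (r : Row) (k : C) : r ᵥ* ((A k - 1) * (A k - 1)) = ![0, 0, 0, k.a * k.a * r 0,
    (k.a * k.c + k.b * (k.d + mm k.a)) * r 0,
    k.a * (k.d - k.b - mm k.a) * r 0 - k.a * k.a * r 1] := by
  rw [← Matrix.vecMul_vecMul, vN, vN]
  ext i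
  fin_cases i <;> simp <;> ring1

/-- `Z = A k - A (k ^ 4)` -/
def Z (k : C) : Matrix (Fin 6) (Fin 6) F := A k - A (k ^ 4)

lemma Z_mul_A (k δ : C) : Z k * A δ = Z k := by
  rw [Z, k_four]
  ext i j
  fin_cases i <;> fin_cases j <;> simp [A, Matrix.mul_apply, Fin.sum_univ_succ]

lemma A_mul_Z (k δ : C) : A δ * Z k = Z k := by
  rw [Z, k_four]
  ext i j
  fin_cases i <;> fin_cases j <;> simp [A, Matrix.mul_apply, Fin.sum_univ_succ]

lemma vZ (r : Row) (k : C) : r ᵥ* Z k = ![0, 0, 0, 0, 0, k.a * r 0] := by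
  rw [Z, k_four, Matrix.vecMul_sub, vA, vA]
  ext i
  fin_cases i <;> simp <;> ring1

/-- if `δ k = k ^ 4 δ` then `A k * A δ = A δ * A k + Z k` -/
lemma comm_Z (k δ : C) (h : δ * k = k ^ 4 * δ) : A k * A δ = A δ * A k + Z k := by
  have h1 : A δ * A k = A (k ^ 4) * A δ := by rw [← A_mul, ← A_mul, h]
  have h2 := Z_mul_A k δ
  rw [Z, Matrix.sub_mul] at h2
  rw [h1, Z, ← h2]; abel

lemma sq_one (a : F) (h : a ≠ 0) : a * a = 1 := by
  revert a; decide

/-- solving `u (A k - 1) = r` -/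
lemma solveN (k : C) (ha : k.a ≠ 0) (r : Row) (h0 : r 0 = 0)
    (h2 : r 2 - k.a * k.b * r 1 = 0)
    (h4 : k.d + mm k.a = 0 → r 4 - k.a * k.c * r 3 + (mm k.a * k.c - k.a * k.e) * r 1 = 0) :
    ∃ u : Row, u ᵥ* (A k - 1) = r := by
  have haa := sq_one k.a ha
  by_cases hd : k.d + mm k.a = 0
  · have h4' := h4 hd
    refine ⟨![k.a * r 1, k.a * (r 3 - mm k.a * (k.a * r 1)), 0,
      - k.a * (r 5 - k.d * (k.a * (r 3 - mm k.a * (k.a * r 1))) - k.f * (k.a * r 1)), 0, 0], ?_⟩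
    rw [vN]
    ext i
    fin_cases i
    · simp [h0]
    · simp only [Fin.mk_one, Fin.isValue, Matrix.cons_val_one, Matrix.cons_val_zero]
      linear_combination (r 1) * haa
    · simp
      linear_combination -h2
    · simp
      linear_combination (r 3 - mm k.a * (k.a * r 1)) * haa
    · simp
      linear_combination -h4' - k.c * mm k.a * r 1 * haa
    · simp
      linear_combination (r 5 - k.d * (k.a * (r 3 - mm k.a * (k.a * r 1))) - k.f * (k.a * r 1)) * haa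
  · have hdd := sq_one _ hd
    set D := k.d + mm k.a with hD
    refine ⟨![k.a * r 1, k.a * (r 3 - mm k.a * (k.a * r 1)),
      D * (r 4 - k.c * (k.a * (r 3 - mm k.a * (k.a * r 1))) - k.e * (k.a * r 1)),
      - k.a * (r 5 + k.a * (D * (r 4 - k.c * (k.a * (r 3 - mm k.a * (k.a * r 1)))
        - k.e * (k.a * r 1))) - k.d * (k.a * (r 3 - mm k.a * (k.a * r 1))) - k.f * (k.a * r 1)),
      0, 0], ?_⟩
    rw [vN]
    ext i
    fin_cases i
    · simp [h0]
    · simp
      linear_combination (r 1) * haa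
    · simp
      linear_combination -h2
    · simp
      linear_combination (r 3 - mm k.a * (k.a * r 1)) * haa
    · simp [← hD]
      linear_combination (r 4 - k.c * (k.a * (r 3 - mm k.a * (k.a * r 1)))
        - k.e * (k.a * r 1)) * hdd
    · simp
      linear_combination (r 5 + k.a * (D * (r 4 - k.c * (k.a * (r 3 - mm k.a * (k.a * r 1)))
        - k.e * (k.a * r 1))) - k.d * (k.a * (r 3 - mm k.a * (k.a * r 1)))
        - k.f * (k.a * r 1)) * haa

/-- matrix version of `solveN` -/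
lemma solveN' (k : C) (ha : k.a ≠ 0) (w : V) (h0 : ∀ i, w i 0 = 0)
    (h2 : ∀ i, w i 2 - k.a * k.b * w i 1 = 0)
    (h4 : k.d + mm k.a = 0 →
      ∀ i, w i 4 - k.a * k.c * w i 3 + (mm k.a * k.c - k.a * k.e) * w i 1 = 0) :
    ∃ u : V, u * (A k - 1) = w := by
  choose u hu using fun i => solveN k ha (w i) (h0 i) (h2 i) (fun h => h4 h i)
  refine ⟨Matrix.of u, ?_⟩
  ext i j
  rw [Matrix.mul_apply_eq_vecMul]
  exact congrFun (hu i) j

end Pool.Agent.Helper804.Cut
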